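import Pool.Agent.Helper26.CP.Gen
import Pool.Agent.Helper15.SQ.K

/-!
# MP_418075_nt: the columns for `n < 28672` (helper26)
-/

set_option autoImplicit false
open Finset

namespace Pool.Agent.Helper26.CP

open Pool.Agent.Helper1.SQ
open Pool.Agent.Helper15.SQ
open Pool.Agent.Helper40.SQ (F F_succ F_bound F_card count_eq)

/-! ### very small `n` -/

def crit (m : ℕ) : Bool :=
  bif Nat.blt m 16 then true else bif Nat.blt m 81 then Nat.beq (Nat.gcd m 2) 1 else
  bif Nat.blt m 625 then Nat.beq (Nat.gcd m 6) 1 else bif Nat.blt m 2401 then Nat.beq (Nat.gcd m 30) 1 else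
  bif Nat.blt m 14641 then Nat.beq (Nat.gcd m 210) 1 else
  bif Nat.blt m 28561 then Nat.beq (Nat.gcd m 2310) 1 else
  (Nat.blt m 83521 && Nat.beq (Nat.gcd m 30030) 1)

theorem hP13 : ∀ p, p < 13 → p.Prime → p ∣ 2310 := by decide +kernel

theorem crit_spec {m : ℕ} (hm : 0 < m) (h : crit m = true) :
    ArithmeticFunction.cardFactors m ≤ 3 := by
  rw [crit] at h
  rcases h1 : Nat.blt m 16 with _ | _
  · rw [h1, cond_false] at h
    rcases h2 : Nat.blt m 81 with _ | _
    · rw [h2, cond_false] at h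
      rcases h3 : Nat.blt m 625 with _ | _
      · rw [h3, cond_false] at h
        rcases h4 : Nat.blt m 2401 with _ | _
        · rw [h4, cond_false] at h
          rcases h5 : Nat.blt m 14641 with _ | _
          · rw [h5, cond_false] at h
            rcases h6 : Nat.blt m 28561 with _ | _
            · rw [h6, cond_false, Bool.and_eq_true] at h
              exact omega_le hP17 (Nat.eq_of_beq_eq_true h.2) hm
                (by have := Nat.le_of_ble_eq_true h.1; norm_num; omega)
            · rw [h6, cond_true] at h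
              exact omega_le hP13 (Nat.eq_of_beq_eq_true h) hm
                (by have := Nat.le_of_ble_eq_true h6; norm_num; omega)
          · rw [h5, cond_true] at h
            exact omega_le hP11 (Nat.eq_of_beq_eq_true h) hm
              (by have := Nat.le_of_ble_eq_true h5; norm_num; omega)
        · rw [h4, cond_true] at h
          exact omega_le hP7 (Nat.eq_of_beq_eq_true h) hm
            (by have := Nat.le_of_ble_eq_true h4; norm_num; omega)
      · rw [h3, cond_true] at h
        exact omega_le hP5 (Nat.eq_of_beq_eq_true h) hm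
          (by have := Nat.le_of_ble_eq_true h3; norm_num; omega)
    · rw [h2, cond_true] at h
      exact omega_le hP3 (Nat.eq_of_beq_eq_true h) hm
        (by have := Nat.le_of_ble_eq_true h2; norm_num; omega)
  · exact omega_le hP2 (Nat.gcd_one_right m) hm
      (by have := Nat.le_of_ble_eq_true h1; norm_num; omega)

/-- `crit` holds for one of `m + n, …, m + c n` -/
def fnd (n : ℕ) : ℕ → ℕ → Bool
  | _, 0 => false
  | m, c + 1 => bif crit (m + n) then true else fnd n (m + n) c

theorem fnd_spec (n c : ℕ) : ∀ m, fnd n m c = true → ∃ j, 1 ≤ j ∧ j ≤ c ∧ crit (m + n * j) = true := by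
  induction c with
  | zero => intro m h; simp [fnd] at h
  | succ c ih =>
    intro m h
    rw [fnd] at h
    rcases hb : crit (m + n) with _ | _
    · rw [hb, cond_false] at h
      obtain ⟨j, h1, h2, h3⟩ := ih _ h
      refine ⟨j + 1, by omega, by omega, ?_⟩
      rw [show m + n * (j + 1) = m + n + n * j by ring]
      exact h3
    · exact ⟨1, le_rfl, by omega, by rw [mul_one]; exact hb⟩

/-- all `k ≤ K` coprime to `n` -/
def allK (n φ : ℕ) : ℕ → Bool
  | 0 => true
  | k + 1 => allK n φ k && (bif Nat.beq (Nat.gcd (k + 1) n) 1 then fnd n (k + 1) φ else true)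

theorem allK_spec (n φ K : ℕ) (h : allK n φ K = true) : ∀ k, 1 ≤ k → k ≤ K → Nat.gcd k n = 1 →
    fnd n k φ = true := by
  induction K with
  | zero => intro k h1 h2; omega
  | succ K ih =>
    intro k h1 h2 h3
    rw [allK, Bool.and_eq_true] at h
    rcases Nat.lt_or_ge K k with h4 | h4
    · have e : k = K + 1 := by omega
      subst e
      have h5 : Nat.beq (Nat.gcd (K + 1) n) 1 = true := by rw [h3]; rfl
      rw [h5, cond_true] at h
      exact h.2
    · exact ih h.1 k h1 h4 h3

def chkA (n : ℕ) : Bool := allK n (tc n n) n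

theorem chkA_all : allB chkA 8 0 = true := by decide +kernel

theorem good_small {n k : ℕ} (hn : 1 < n) (h : n ≤ 180) (hk : 1 ≤ k) (hkn : k ≤ n)
    (hg : Nat.Coprime k n) : Good n k := by
  have h1 := allB_spec chkA 8 0 chkA_all n (by omega) (by norm_num; omega)
  rw [chkA, tc_self] at h1
  obtain ⟨j, h2, h3, h4⟩ := fnd_spec n _ k (allK_spec n _ n h1 k hk hkn hg)
  refine ⟨j, h2, h3, crit_spec (by omega) h4, fun p hp _ => ?_⟩
  have h5 : 2 ^ 8 ≤ p ^ 8 := Nat.pow_le_pow_left hp.two_le 8
  omega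

/-! ### windows -/

theorem good_window {n k T q P L : ℕ} (hc : Col n k T) (hP : ∀ p, p < q → p.Prime → p ∣ P)
    (hL : L ≤ Nat.totient n) (hq : n * (L + 1) < q ^ 4) (hq8 : n < q ^ 8)
    (h : ∃ x ∈ Ioc T (T + L), Nat.Coprime x P) : Good n k := by
  obtain ⟨x, hx, hxP⟩ := h
  rw [Finset.mem_Ioc] at hx
  obtain ⟨h1, h2, h3, h4⟩ := hc.mem (h := x) (Finset.mem_Ioc.2 ⟨hx.1, by omega⟩)
  have h5 : Nat.gcd (val n k T x) P = 1 := Nat.Coprime.coprime_dvd_left h3 hxP
  have hk := hc.hk
  have hkn := hc.hkn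
  have h6 : val n k T x ≤ n * (L + 1) := by
    unfold val
    have h7 : n * (x - T) ≤ n * L := Nat.mul_le_mul_left n (by omega)
    rw [mul_add, mul_one]
    omega
  refine ⟨x - T, h1, h2, omega_le hP h5 (by omega) (by unfold val at h6; omega), fun p hp hpm => ?_⟩
  · have hqp : q ≤ p := by
      by_contra hlt
      rw [not_le] at hlt
      have h8 : p ∣ Nat.gcd (val n k T x) P := Nat.dvd_gcd hpm (hP p hlt hp)
      rw [h5] at h8
      exact hp.one_lt.ne' (Nat.dvd_one.mp h8)
    exact lt_of_lt_of_le hq8 (Nat.pow_le_pow_left hqp 8)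

theorem window37 (T : ℕ) : ∃ x ∈ Ioc T (T + 37), Nat.Coprime x 30030 := by
  have h1 := F_bound T
  have h2 := F_bound (T + 37)
  have h3 := F_card T (T + 37) (by omega)
  have h4 : 0 < ((Ioc T (T + 37)).filter (fun j => Nat.Coprime j 30030)).card := by omega
  obtain ⟨x, hx⟩ := Finset.card_pos.1 h4
  rw [Finset.mem_filter] at hx
  exact ⟨x, hx.1, hx.2⟩

/-- number of `x ∈ (A, A + L]` coprime to `30` -/
def w (A : ℕ) : ℕ → ℕ
  | 0 => 0
  | L + 1 => w A L + (bif Nat.beq (Nat.gcd (A + L + 1) 30) 1 then 1 else 0)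

theorem w_mod (A L : ℕ) : w A L = w (A % 30) L := by
  induction L with
  | zero => rfl
  | succ L ih =>
    rw [w, w, ih]
    have h1 : Nat.gcd (A + L + 1) 30 = Nat.gcd (A % 30 + L + 1) 30 := by
      rw [Nat.gcd_comm, Nat.gcd_comm (A % 30 + L + 1), Nat.gcd_rec, Nat.gcd_rec 30 (A % 30 + L + 1)]
      congr 1
      omega
    rw [h1]

theorem F_le_w (A L : ℕ) : F (A + L) ≤ F A + w A L := by
  induction L with
  | zero => simp [w]
  | succ L ih =>
    rw [show A + (L + 1) = (A + L) + 1 by ring, F_succ, w]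
    by_cases h : Nat.Coprime (A + L + 1) 30030
    · have h1 : Nat.gcd (A + L + 1) 30 = 1 := Nat.Coprime.coprime_dvd_right (by norm_num) h
      rw [if_pos h, h1]
      have : (bif Nat.beq 1 1 then 1 else 0) = 1 := rfl
      rw [this]
      omega
    · rw [if_neg h]
      omega

theorem w_tab : ∀ r, r < 30 → w r 16 ≤ 5 ∧ w r 14 ≤ 5 ∧ w r 12 ≤ 4 ∧ w r 9 ≤ 4 ∧ w r 7 ≤ 3 ∧ w r 6 ≤ 2 := by
  decide +kernel

theorem F_win (A : ℕ) : F (A + 16) ≤ F A + 5 ∧ F (A + 14) ≤ F A + 5 ∧ F (A + 12) ≤ F A + 4 ∧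
    F (A + 9) ≤ F A + 4 ∧ F (A + 7) ≤ F A + 3 ∧ F (A + 6) ≤ F A + 2 := by
  have h := w_tab (A % 30) (Nat.mod_lt _ (by norm_num))
  rw [← w_mod, ← w_mod, ← w_mod, ← w_mod, ← w_mod, ← w_mod] at h
  have h1 := F_le_w A 16
  have h2 := F_le_w A 14
  have h3 := F_le_w A 12
  have h4 := F_le_w A 9
  have h5 := F_le_w A 7
  have h6 := F_le_w A 6
  omega

theorem F_mono {A B : ℕ} (h : A ≤ B) : F A ≤ F B := by
  rw [F_card A B h]
  exact Nat.le_add_right _ _

/-- the primes between 17 and 47 -/
def Qs : Finset ℕ := {17, 19, 23, 29, 31, 37, 41, 43, 47}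

def Kf (q : ℕ) : ℕ := if q ≤ 19 then 5 else if q ≤ 31 then 4 else if q ≤ 41 then 3 else 2

theorem bad_card (T q : ℕ) (hq : q ∈ Qs) :
    ((Ioc T (T + 256)).filter (fun m => q ∣ m ∧ Nat.Coprime m 30030)).card ≤ Kf q := by
  have h0 : 0 < q ∧ Nat.Coprime q 30030 := by
    revert q
    decide +kernel
  have h1 := count_eq T 256 q h0.1 h0.2
  have key : ∀ L K : ℕ, (T + 256) / q ≤ T / q + L → F (T / q + L) ≤ F (T / q) + K →
      ((Ioc T (T + 256)).filter (fun m => q ∣ m ∧ Nat.Coprime m 30030)).card ≤ K := by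
    intro L K h2 h3
    have h4 := F_mono h2
    omega
  obtain ⟨f1, f2, f3, f4, f5, f6⟩ := F_win (T / q)
  unfold Qs at hq
  simp only [Finset.mem_insert, Finset.mem_singleton] at hq
  rcases hq with rfl | rfl | rfl | rfl | rfl | rfl | rfl | rfl | rfl
  · exact key 16 5 (by omega) f1
  · exact key 14 5 (by omega) f2
  · exact key 12 4 (by omega) f3
  · exact key 9 4 (by omega) f4
  · exact key 9 4 (by omega) f4
  · exact key 7 3 (by omega) f5
  · exact key 7 3 (by omega) f5
  · exact key 6 2 (by omega) f6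
  · exact key 6 2 (by omega) f6

def P47 : ℕ := 614889782588491410

theorem hP53 : ∀ p, p < 53 → p.Prime → p ∣ P47 := by decide +kernel

theorem cop47 {x : ℕ} (h : Nat.Coprime x 30030) (hq : ∀ q ∈ Qs, ¬ q ∣ x) : Nat.Coprime x P47 := by
  have hp : ∀ q ∈ Qs, Nat.Coprime x q := by
    intro q hq'
    have hpr : q.Prime := by
      unfold Qs at hq'
      simp only [Finset.mem_insert, Finset.mem_singleton] at hq'
      rcases hq' with rfl | rfl | rfl | rfl | rfl | rfl | rfl | rfl | rfl <;> norm_num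
    exact ((Nat.Prime.coprime_iff_not_dvd hpr).2 (hq q hq')).symm
  have e : P47 = 30030 * 17 * 19 * 23 * 29 * 31 * 37 * 41 * 43 * 47 := by
    norm_num [P47]
  rw [e]
  refine Nat.Coprime.mul_right (Nat.Coprime.mul_right (Nat.Coprime.mul_right (Nat.Coprime.mul_right
    (Nat.Coprime.mul_right (Nat.Coprime.mul_right (Nat.Coprime.mul_right (Nat.Coprime.mul_right
    (Nat.Coprime.mul_right h ?_) ?_) ?_) ?_) ?_) ?_) ?_) ?_) ?_ <;> exact hp _ (by decide)

theorem window256 (T : ℕ) : ∃ x ∈ Ioc T (T + 256), Nat.Coprime x P47 := by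
  by_contra hcon
  push Not at hcon
  have h1 := F_bound T
  have h2 := F_bound (T + 256)
  have h3 := F_card T (T + 256) (by omega)
  have hsub : (Ioc T (T + 256)).filter (fun j => Nat.Coprime j 30030) ⊆
      Qs.biUnion (fun q => (Ioc T (T + 256)).filter (fun m => q ∣ m ∧ Nat.Coprime m 30030)) := by
    intro x hx
    rw [Finset.mem_filter] at hx
    have h4 : ∃ q ∈ Qs, q ∣ x := by
      by_contra h5
      push Not at h5
      exact hcon x hx.1 (cop47 hx.2 h5)
    obtain ⟨q, hq, hqx⟩ := h4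
    rw [Finset.mem_biUnion]
    exact ⟨q, hq, Finset.mem_filter.2 ⟨hx.1, hqx, hx.2⟩⟩
  have h4 := (Finset.card_le_card hsub).trans Finset.card_biUnion_le
  have h5 : ∑ q ∈ Qs, ((Ioc T (T + 256)).filter (fun m => q ∣ m ∧ Nat.Coprime m 30030)).card ≤
      ∑ q ∈ Qs, Kf q := Finset.sum_le_sum fun q hq => bad_card T q hq
  have h6 : ∑ q ∈ Qs, Kf q = 32 := by decide +kernel
  omega

theorem good_28672 {n k T : ℕ} (hc : Col n k T) (hg : Nat.Coprime k n) (h : n < 28672) : Good n k := by
  have hn := hc.hn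
  rcases Nat.lt_or_ge (Nat.totient n) 37 with h1 | h1
  · have h2 := totL 5 37 n (by omega) (by decide) h1
    exact good_small hn (by omega) hc.hk hc.hkn hg
  rcases Nat.lt_or_ge (Nat.totient n) 256 with h2 | h2
  · have h3 := totL 6 256 n (by omega) (by decide) h2
    exact good_window (L := 37) hc hP17 h1 (by norm_num; omega) (by norm_num; omega) (window37 T)
  · exact good_window (L := 256) hc hP53 h2 (by norm_num; omega) (by norm_num; omega) (window256 T)

end Pool.Agent.Helper26.CP
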