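import Pool.Agent.Helper1.SQ.C1c
import Pool.Agent.Helper1.SQ.C2b
import Pool.Agent.Helper5.SQ.MT
import Pool.Agent.Helper30.SQ.HP
import Pool.Agent.Helper40.SQ.D
import Pool.Agent.Helper68.SQ.L

/-!
# MP_418075_nt: almost primes in the columns (helper26). The weighted sieve of project SQ (helper1 and others,
MP_36c81c_nt) for a function `f` with `f h ∣ h` on the interval.
-/

set_option autoImplicit false
open Finset

namespace Pool.Agent.Helper26.CP

open Pool.Agent.Helper1.SQ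

/-- the integers `f h` divide `h` and are not too large -/
def VL (f : ℕ → ℕ) (N H Λ : ℕ) : Prop :=
  ∀ h ∈ Ioc N (N + H), 0 < f h ∧ f h ∣ h ∧ f h < 2 ^ (Λ + 1)

/-- `∑_{j ≥ 2} #{m ∈ S : p^j ∣ f m}` -/
noncomputable def hpf (f : ℕ → ℕ) (N H a p : ℕ) : ℕ :=
  ∑ m ∈ cnt N H 1 a, ((f m).factorization p - 1)

open HP in
theorem hpf_le {f : ℕ → ℕ} (N H Λ a i p : ℕ) (hpi : 2 ^ i < p) (hi : 0 < i)
    (hV : VL f N H Λ) :
    hpf f N H a p ≤ ∑ l ∈ range (Λ / i - 2 + 1),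
      ((cnt N H 1 a).filter (fun m => p ^ (l + 2) ∣ m)).card := by
  unfold hpf
  have h1 : ∀ m ∈ cnt N H 1 a, (f m).factorization p - 1 ≤
      ∑ l ∈ range (Λ / i - 2 + 1), if p ^ (l + 2) ∣ m then 1 else 0 := by
    intro m hm
    obtain ⟨v0, v1, v2⟩ := hV m (mem_filter.1 hm).1
    have hf := fac_le hpi hi v0 v2
    rw [← card_filter]
    have h2 : range ((f m).factorization p - 1) ⊆
        (range (Λ / i - 2 + 1)).filter (fun l => p ^ (l + 2) ∣ m) := by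
      intro l hl
      rw [mem_range] at hl
      rw [mem_filter, mem_range]
      refine ⟨by omega, ?_⟩
      exact ((pow_dvd_pow p (by omega)).trans (Nat.ordProj_dvd (f m) p)).trans v1
    have h3 := card_le_card h2
    rwa [card_range] at h3
  refine (sum_le_sum h1).trans (le_of_eq ?_)
  rw [sum_comm]
  refine sum_congr rfl fun l _ => ?_
  rw [card_filter]

open HP in
theorem hpbf (hD : Disc) {f : ℕ → ℕ} (N H Λ a i : ℕ) (ha : 4 ≤ a) (hai : a ≤ i) (hNH : VL f N H Λ) :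
    ∑ p ∈ PB i (i + 1), (hpf f N H a p : ℝ) ≤
      min (192 / 1001 * (H : ℝ) * sm i (i + 1) / 2 ^ i + 8 * ((PB i (i + 1)).card : ℝ))
        ((H : ℝ) * sm i (i + 1) / 2 ^ i + ((PB i (i + 1)).card : ℝ)) +
      ((H : ℝ) * sm i (i + 1) / 4 ^ i + ((PB i (i + 1)).card : ℝ) * ((Λ / i - 2 : ℕ) : ℝ)) := by
  have hi : 0 < i := by omega
  set K : ℕ := Λ / i - 2 with hK
  have hH : (0 : ℝ) ≤ H := Nat.cast_nonneg _
  -- facts on the primes of the block
  have hP : ∀ p ∈ PB i (i + 1), p.Prime ∧ 2 ^ i < p := by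
    intro p hp
    have h := mem_filter.1 hp
    exact ⟨h.2, (mem_Ioc.1 h.1).1⟩
  have h16 : ∀ p ∈ PB i (i + 1), 16 < p := by
    intro p hp
    have h1 : 2 ^ 4 ≤ 2 ^ i := Nat.pow_le_pow_right (by norm_num) (by omega)
    have := (hP p hp).2
    omega
  -- the term `j = 2`
  have h2a : ∀ p ∈ PB i (i + 1),
      ((((cnt N H 1 a).filter (fun m => p ^ (0 + 2) ∣ m)).card : ℕ) : ℝ) ≤
        192 / 1001 * ((H : ℝ) / ((p : ℝ) * p)) + 8 := by
    intro p hp
    have hpp := (hP p hp).1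
    have hcop : Nat.Coprime (p ^ 2) 30030 := by
      apply Nat.Coprime.pow_left
      rw [Nat.Prime.coprime_iff_not_dvd hpp]
      intro hdvd
      have h30 : (30030 : ℕ) = 2 * 3 * 5 * 7 * 11 * 13 := by norm_num
      rw [h30] at hdvd
      have := h16 p hp
      simp only [hpp.dvd_mul] at hdvd
      rcases hdvd with ((((h | h) | h) | h) | h) | h <;>
        · have := Nat.le_of_dvd (by norm_num) h
          omega
    have h := hD N H (p ^ 2) (by have := hpp.pos; positivity) hcop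
    have h' := (abs_le.1 h).2
    have hsub : ((cnt N H 1 a).filter (fun m => p ^ (0 + 2) ∣ m)).card ≤
        ((Ioc N (N + H)).filter (fun m => p ^ 2 ∣ m ∧ Nat.Coprime m 30030)).card := by
      refine card_le_card fun m hm => ?_
      rw [mem_filter] at hm
      have hm1 := mem_filter.1 hm.1
      exact mem_filter.2 ⟨hm1.1, by simpa using hm.2, hm1.2.2.1⟩
    have hsub' : ((((cnt N H 1 a).filter (fun m => p ^ (0 + 2) ∣ m)).card : ℕ) : ℝ) ≤
        ((((Ioc N (N + H)).filter (fun m => p ^ 2 ∣ m ∧ Nat.Coprime m 30030)).card : ℕ) : ℝ) := by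
      exact_mod_cast hsub
    have e : ((p ^ 2 : ℕ) : ℝ) = (p : ℝ) * p := by
      push_cast
      ring
    rw [e] at h'
    linarith
  have h2b : ∀ p ∈ PB i (i + 1), ∀ l : ℕ,
      ((((cnt N H 1 a).filter (fun m => p ^ (l + 2) ∣ m)).card : ℕ) : ℝ) ≤
        (H : ℝ) / (p : ℝ) ^ (l + 2) + 1 := by
    intro p hp l
    have hpp := (hP p hp).1
    have hsub : ((cnt N H 1 a).filter (fun m => p ^ (l + 2) ∣ m)).card ≤
        ((Ioc N (N + H)).filter (fun m => p ^ (l + 2) ∣ m)).card := by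
      refine card_le_card fun m hm => ?_
      rw [mem_filter] at hm
      exact mem_filter.2 ⟨(mem_filter.1 hm.1).1, hm.2⟩
    have h := card_mult N H (d := p ^ (l + 2)) (by have := hpp.pos; positivity)
    have hsub' : ((((cnt N H 1 a).filter (fun m => p ^ (l + 2) ∣ m)).card : ℕ) : ℝ) ≤
        ((((Ioc N (N + H)).filter (fun m => p ^ (l + 2) ∣ m)).card : ℕ) : ℝ) := by
      exact_mod_cast hsub
    push_cast at h
    linarith
  -- inverse powers
  have hinv2 : ∀ p ∈ PB i (i + 1), (1 : ℝ) / ((p : ℝ) * p) ≤ 1 / p / 2 ^ i := by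
    intro p hp
    have h1 : ((2 : ℝ) ^ i) < p := by exact_mod_cast (hP p hp).2
    have h0 : (0 : ℝ) < 2 ^ i := by positivity
    rw [div_div]
    exact one_div_le_one_div_of_le (mul_pos (h0.trans h1) h0)
      (mul_le_mul_of_nonneg_left h1.le (by linarith))
  have hinv3 : ∀ p ∈ PB i (i + 1), (1 : ℝ) / ((p : ℝ) ^ 2 * (p - 1)) ≤ 1 / p / 4 ^ i := by
    intro p hp
    have h1 : ((2 : ℝ) ^ i) + 1 ≤ p := by exact_mod_cast (hP p hp).2
    have h0 : (0 : ℝ) < 2 ^ i := by positivity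
    have e : (4 : ℝ) ^ i = 2 ^ i * 2 ^ i := by
      rw [← mul_pow]
      norm_num
    rw [div_div, e]
    have hp0 : (0 : ℝ) < p := by linarith
    refine one_div_le_one_div_of_le (mul_pos hp0 (mul_pos h0 h0)) ?_
    have h3 : (2 : ℝ) ^ i * 2 ^ i ≤ p * (p - 1) :=
      mul_le_mul (by linarith) (by linarith) h0.le hp0.le
    calc (p : ℝ) * (2 ^ i * 2 ^ i) ≤ p * (p * (p - 1)) := mul_le_mul_of_nonneg_left h3 hp0.le
      _ = (p : ℝ) ^ 2 * (p - 1) := by ring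
  -- the terms `j ≥ 3`
  have h3 : ∀ p ∈ PB i (i + 1),
      ∑ l ∈ range K, ((((cnt N H 1 a).filter (fun m => p ^ (l + 1 + 2) ∣ m)).card : ℕ) : ℝ) ≤
        (H : ℝ) * (1 / p / 4 ^ i) + K := by
    intro p hp
    have hp1 : (1 : ℝ) < p := by exact_mod_cast (hP p hp).1.one_lt
    calc ∑ l ∈ range K, ((((cnt N H 1 a).filter (fun m => p ^ (l + 1 + 2) ∣ m)).card : ℕ) : ℝ)
        ≤ ∑ l ∈ range K, ((H : ℝ) / (p : ℝ) ^ (l + 1 + 2) + 1) :=
          sum_le_sum fun l _ => h2b p hp (l + 1)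
      _ = (H : ℝ) * ∑ l ∈ range K, 1 / (p : ℝ) ^ (l + 3) + K := by
          rw [sum_add_distrib, mul_sum]
          congr 1
          · exact sum_congr rfl fun l _ => by rw [mul_one_div]
          · simp
      _ ≤ (H : ℝ) * (1 / p / 4 ^ i) + K := by
          have := mul_le_mul_of_nonneg_left ((geo hp1 K).trans (hinv3 p hp)) hH
          linarith
  -- one prime
  have h4 : ∀ p ∈ PB i (i + 1), (hpf f N H a p : ℝ) ≤
      ((((cnt N H 1 a).filter (fun m => p ^ (0 + 2) ∣ m)).card : ℕ) : ℝ) +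
        ((H : ℝ) * (1 / p / 4 ^ i) + K) := by
    intro p hp
    have h := hpf_le N H Λ a i p (hP p hp).2 hi hNH
    rw [← hK, sum_range_succ'] at h
    have h' : (hpf f N H a p : ℝ) ≤
        ∑ l ∈ range K, ((((cnt N H 1 a).filter (fun m => p ^ (l + 1 + 2) ∣ m)).card : ℕ) : ℝ) +
        ((((cnt N H 1 a).filter (fun m => p ^ (0 + 2) ∣ m)).card : ℕ) : ℝ) := by
      exact_mod_cast h
    linarith [h3 p hp]
  have hsm : ∑ p ∈ PB i (i + 1), (1 : ℝ) / p = sm i (i + 1) := rfl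
  refine (sum_le_sum h4).trans ?_
  rw [sum_add_distrib]
  refine add_le_add (le_min ?_ ?_) ?_
  · calc ∑ p ∈ PB i (i + 1), ((((cnt N H 1 a).filter (fun m => p ^ (0 + 2) ∣ m)).card : ℕ) : ℝ)
        ≤ ∑ p ∈ PB i (i + 1), (192 / 1001 * (H : ℝ) / 2 ^ i * (1 / p) + 8) := by
          refine sum_le_sum fun p hp => (h2a p hp).trans ?_
          have := mul_le_mul_of_nonneg_left (hinv2 p hp)
            (show (0 : ℝ) ≤ 192 / 1001 * H by positivity)
          have e1 : 192 / 1001 * ((H : ℝ) / ((p : ℝ) * p)) = 192 / 1001 * H * (1 / ((p : ℝ) * p)) := by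
            ring
          have e2 : 192 / 1001 * (H : ℝ) / 2 ^ i * (1 / p) = 192 / 1001 * H * (1 / p / 2 ^ i) := by
            ring
          rw [e1, e2]
          linarith
      _ = 192 / 1001 * (H : ℝ) * sm i (i + 1) / 2 ^ i + 8 * ((PB i (i + 1)).card : ℝ) := by
          rw [sum_add_distrib, ← mul_sum, hsm, sum_const, nsmul_eq_mul]
          ring
  · calc ∑ p ∈ PB i (i + 1), ((((cnt N H 1 a).filter (fun m => p ^ (0 + 2) ∣ m)).card : ℕ) : ℝ)
        ≤ ∑ p ∈ PB i (i + 1), ((H : ℝ) / 2 ^ i * (1 / p) + 1) := by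
          refine sum_le_sum fun p hp => (h2b p hp 0).trans ?_
          have := mul_le_mul_of_nonneg_left (hinv2 p hp) hH
          have e1 : (H : ℝ) / (p : ℝ) ^ (0 + 2) = H * (1 / ((p : ℝ) * p)) := by
            rw [zero_add, pow_two]
            ring
          have e2 : (H : ℝ) / 2 ^ i * (1 / p) = H * (1 / p / 2 ^ i) := by ring
          rw [e1, e2]
          linarith
      _ = (H : ℝ) * sm i (i + 1) / 2 ^ i + ((PB i (i + 1)).card : ℝ) := by
          rw [sum_add_distrib, ← mul_sum, hsm, sum_const, nsmul_eq_mul]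
          ring
  · rw [sum_add_distrib, sum_const, nsmul_eq_mul]
    refine add_le_add (le_of_eq ?_) le_rfl
    rw [← hsm, mul_sum, sum_div]
    exact sum_congr rfl fun p _ => by ring

theorem cnt_val {f : ℕ → ℕ} {N H Λ a m : ℕ} (hV : VL f N H Λ) (hm : m ∈ cnt N H 1 a) :
    f m ∈ cnt (f m - 1) 1 1 a := by
  unfold cnt at hm ⊢
  rw [Finset.mem_filter] at hm ⊢
  obtain ⟨h1, _, h3, h4⟩ := hm
  obtain ⟨v0, v1, _⟩ := hV m h1
  refine ⟨?_, one_dvd _, Nat.Coprime.coprime_dvd_left v1 h3, fun q hq hd => h4 q hq (hd.trans v1)⟩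
  rw [Finset.mem_Ioc]
  omega

theorem sum_fact_lef {f : ℕ → ℕ} {N H Λ a p : ℕ} (hV : VL f N H Λ) :
    ∑ m ∈ cnt N H 1 a, (f m).factorization p ≤ (cnt N H p a).card + hpf f N H a p := by
  have h1 : (cnt N H p a).card = ∑ m ∈ cnt N H 1 a, (if p ∣ m then 1 else 0) := by
    rw [← Finset.card_filter]
    congr 1
    unfold cnt
    rw [Finset.filter_filter]
    apply Finset.filter_congr
    intro m _
    constructor
    · rintro ⟨h1, h2, h3⟩
      exact ⟨⟨one_dvd _, h2, h3⟩, h1⟩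
    · rintro ⟨⟨_, h2, h3⟩, h1⟩
      exact ⟨h1, h2, h3⟩
  rw [h1]
  unfold hpf
  rw [← Finset.sum_add_distrib]
  apply Finset.sum_le_sum
  intro m hm
  obtain ⟨v0, v1, v2⟩ := hV m (Finset.mem_filter.1 hm).1
  by_cases h : p ∣ m
  · rw [if_pos h]
    omega
  · rw [if_neg h, Nat.factorization_eq_zero_of_not_dvd (fun hd => h (hd.trans v1))]

theorem mtf (hW : Wt) {f : ℕ → ℕ} (N H k Λ a : ℕ) (hV : VL f N H Λ)
    (hlt : ∑ i ∈ Ico a k, ((k : ℝ) - i) * ∑ p ∈ PB i (i + 1), (((cnt N H p a).card : ℝ) + hpf f N H a p) <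
    (4 * (k : ℝ) - Λ) * ((cnt N H 1 a).card : ℝ)) :
    ∃ m ∈ cnt N H 1 a, ArithmeticFunction.cardFactors (f m) ≤ 3 := by
  by_contra hcon
  push Not at hcon
  have hS : ∀ m ∈ cnt N H 1 a, m ∈ Ioc N (N + H) := by
    intro m hm
    unfold cnt at hm
    exact (Finset.mem_filter.mp hm).1
  have h1 : ∀ m ∈ cnt N H 1 a, 4 * k ≤
      ∑ i ∈ Ico a k, ∑ p ∈ PB i (i + 1), (f m).factorization p * (k - i) + Λ := by
    intro m hm
    obtain ⟨v0, v1, v2⟩ := hV m (hS m hm)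
    have h2 := hcon m hm
    have h3 := hW k Λ (f m) v0 v2
    have h4 := Pool.Agent.Helper5.SQ.inner_le (k := k) (cnt_val hV hm)
    have h5 : 4 * k ≤ k * ArithmeticFunction.cardFactors (f m) := by
      rw [mul_comm]
      exact Nat.mul_le_mul_left k (by omega)
    omega
  have h2 : ∑ m ∈ cnt N H 1 a, 4 * k ≤ ∑ m ∈ cnt N H 1 a,
      (∑ i ∈ Ico a k, ∑ p ∈ PB i (i + 1), (f m).factorization p * (k - i) + Λ) :=
    Finset.sum_le_sum h1
  rw [Finset.sum_const, smul_eq_mul, Finset.sum_add_distrib, Finset.sum_const, smul_eq_mul,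
    Finset.sum_comm] at h2
  have h3 : ∑ i ∈ Ico a k, ∑ m ∈ cnt N H 1 a, ∑ p ∈ PB i (i + 1), (f m).factorization p * (k - i) ≤
      ∑ i ∈ Ico a k, (k - i) * ∑ p ∈ PB i (i + 1), ((cnt N H p a).card + hpf f N H a p) := by
    apply Finset.sum_le_sum
    intro i _
    rw [Finset.sum_comm, Finset.mul_sum]
    apply Finset.sum_le_sum
    intro p _
    rw [← Finset.sum_mul, mul_comm]
    exact Nat.mul_le_mul_left _ (sum_fact_lef hV)
  have h4 : (cnt N H 1 a).card * (4 * k) ≤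
      ∑ i ∈ Ico a k, (k - i) * ∑ p ∈ PB i (i + 1), ((cnt N H p a).card + hpf f N H a p) +
      (cnt N H 1 a).card * Λ := by
    linarith
  have h5 : (((cnt N H 1 a).card * (4 * k) : ℕ) : ℝ) ≤
      ((∑ i ∈ Ico a k, (k - i) * ∑ p ∈ PB i (i + 1), ((cnt N H p a).card + hpf f N H a p) +
      (cnt N H 1 a).card * Λ : ℕ) : ℝ) := by exact_mod_cast h4
  push_cast at h5
  have h6 : ∑ i ∈ Ico a k, (((k - i : ℕ)) : ℝ) * ∑ p ∈ PB i (i + 1),
      (((cnt N H p a).card : ℝ) + hpf f N H a p) =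
      ∑ i ∈ Ico a k, ((k : ℝ) - i) * ∑ p ∈ PB i (i + 1),
      (((cnt N H p a).card : ℝ) + hpf f N H a p) := by
    apply Finset.sum_congr rfl
    intro i hi
    rw [Finset.mem_Ico] at hi
    rw [Nat.cast_sub hi.2.le]
  rw [h6] at h5
  linarith

section cert

open Pool.Agent.Helper1.SQ.C

theorem hp_one (H : Hyp) {f : ℕ → ℕ} {N Hn Λ a i h I : ℕ} (ha : 4 ≤ a) (hai : a ≤ i)
    (hI : (D : ℝ) / vp 4 a ≤ I) (hH : 2 ^ h ≤ Hn) (hN : VL f N Hn Λ) :
    (D : ℝ) * ∑ p ∈ PB i (i + 1), (hpf f N Hn a p : ℝ) ≤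
      (192 / 1001 * (Hn : ℝ) * vp 4 a) * (hpI I h Λ i : ℕ) := by
  have hb := hpbf Pool.Agent.Helper40.SQ.disc N Hn Λ a i ha hai hN
  have hv := vp_pos 4 a
  have hHr : (2 : ℝ) ^ h ≤ Hn := by exact_mod_cast hH
  have hHn : (0 : ℝ) ≤ (Hn : ℝ) := Nat.cast_nonneg _
  have hs := sB_ge H (by omega : 4 ≤ i)
  have hs0 := sm_nonneg i (i + 1)
  have hcu : ((PB i (i + 1)).card : ℝ) ≤ (cu i (i + 1) : ℝ) := by
    exact_mod_cast cu_ge H (by omega) (by omega)
  have hc0 : (0 : ℝ) ≤ ((PB i (i + 1)).card : ℝ) := Nat.cast_nonneg _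
  set V : ℝ := 192 / 1001 * (Hn : ℝ) * vp 4 a with hV
  have hV0 : 0 ≤ V := by positivity
  have hD := D_pos
  -- key product: D * sm / vp ≤ sB * I / D
  have key : (D : ℝ) * sm i (i + 1) * (D / vp 4 a) ≤ ((sB i * I : ℕ) : ℝ) := by
    rw [Nat.cast_mul]
    exact mul_le_mul hs hI (div_nonneg hD.le hv.le) (Nat.cast_nonneg _)
  have tA : (D : ℝ) * (192 / 1001 * (Hn : ℝ) * sm i (i + 1) / 2 ^ i) ≤ V * ((sB i * I / (D * 2 ^ i) + 1 : ℕ) : ℝ) := by
    have h1 := div_le_up (sB i * I) (D * 2 ^ i)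
    refine le_trans ?_ (mul_le_mul_of_nonneg_left h1 hV0)
    have h2 : (D : ℝ) * sm i (i + 1) * (D / vp 4 a) / (((D * 2 ^ i : ℕ)) : ℝ) ≤
        ((sB i * I : ℕ) : ℝ) / (((D * 2 ^ i : ℕ)) : ℝ) := div_le_div_of_nonneg_right key (Nat.cast_nonneg _)
    refine le_trans (le_of_eq ?_) (mul_le_mul_of_nonneg_left h2 hV0)
    rw [hV]; push_cast; field_simp
  have tB : (D : ℝ) * ((Hn : ℝ) * sm i (i + 1) / 2 ^ i) ≤
      V * ((1001 * (sB i * I) / (192 * D * 2 ^ i) + 1 : ℕ) : ℝ) := by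
    have h1 := div_le_up (1001 * (sB i * I)) (192 * D * 2 ^ i)
    refine le_trans ?_ (mul_le_mul_of_nonneg_left h1 hV0)
    have h2 : 1001 * ((D : ℝ) * sm i (i + 1) * (D / vp 4 a)) / (((192 * D * 2 ^ i : ℕ)) : ℝ) ≤
        ((1001 * (sB i * I) : ℕ) : ℝ) / (((192 * D * 2 ^ i : ℕ)) : ℝ) := by
      apply div_le_div_of_nonneg_right _ (Nat.cast_nonneg _)
      rw [Nat.cast_mul 1001]
      have := mul_le_mul_of_nonneg_left key (by norm_num : (0 : ℝ) ≤ 1001)
      exact_mod_cast this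
    refine le_trans (le_of_eq ?_) (mul_le_mul_of_nonneg_left h2 hV0)
    rw [hV]; push_cast; field_simp
  have tC : (D : ℝ) * ((Hn : ℝ) * sm i (i + 1) / 4 ^ i) ≤
      V * ((1001 * (sB i * I) / (192 * D * 4 ^ i) + 1 : ℕ) : ℝ) := by
    have h1 := div_le_up (1001 * (sB i * I)) (192 * D * 4 ^ i)
    refine le_trans ?_ (mul_le_mul_of_nonneg_left h1 hV0)
    have h2 : 1001 * ((D : ℝ) * sm i (i + 1) * (D / vp 4 a)) / (((192 * D * 4 ^ i : ℕ)) : ℝ) ≤
        ((1001 * (sB i * I) : ℕ) : ℝ) / (((192 * D * 4 ^ i : ℕ)) : ℝ) := by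
      apply div_le_div_of_nonneg_right _ (Nat.cast_nonneg _)
      rw [Nat.cast_mul 1001]
      have := mul_le_mul_of_nonneg_left key (by norm_num : (0 : ℝ) ≤ 1001)
      exact_mod_cast this
    refine le_trans (le_of_eq ?_) (mul_le_mul_of_nonneg_left h2 hV0)
    rw [hV]; push_cast; field_simp
  have eA : (D : ℝ) * (8 * ((PB i (i + 1)).card : ℝ)) ≤ V * (err I h (8 * cu i (i + 1)) : ℕ) := by
    refine le_trans ?_ (err_ge hI (8 * cu i (i + 1)) hHr)
    apply mul_le_mul_of_nonneg_left _ hD.le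
    push_cast
    linarith
  have eB : (D : ℝ) * ((PB i (i + 1)).card : ℝ) ≤ V * (err I h (cu i (i + 1)) : ℕ) := by
    refine le_trans ?_ (err_ge hI (cu i (i + 1)) hHr)
    exact mul_le_mul_of_nonneg_left hcu hD.le
  have eC : (D : ℝ) * (((PB i (i + 1)).card : ℝ) * ((Λ / i - 2 : ℕ) : ℝ)) ≤
      V * (err I h (cu i (i + 1) * (Λ / i - 2)) : ℕ) := by
    refine le_trans ?_ (err_ge hI (cu i (i + 1) * (Λ / i - 2)) hHr)
    apply mul_le_mul_of_nonneg_left _ hD.le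
    rw [Nat.cast_mul]
    exact mul_le_mul_of_nonneg_right hcu (Nat.cast_nonneg _)
  -- assemble
  unfold hpI
  rw [Nat.cast_add, mul_add]
  refine le_trans (mul_le_mul_of_nonneg_left hb hD.le) ?_
  rw [mul_add]
  apply add_le_add
  · rw [Nat.cast_min, mul_min_of_nonneg _ _ hV0, mul_min_of_nonneg _ _ hD.le]
    apply min_le_min
    · rw [Nat.cast_add _ (err I h _), mul_add, mul_add]
      exact add_le_add tA eA
    · rw [Nat.cast_add _ (err I h _), mul_add, mul_add]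
      exact add_le_add tB eB
  · rw [Nat.cast_add _ (err I h _), mul_add, mul_add]
    exact add_le_add tC eC

theorem hp_sound (H : Hyp) {f : ℕ → ℕ} {N Hn Λ k a h I : ℕ} (ha : 4 ≤ a)
    (hI : (D : ℝ) / vp 4 a ≤ I) (hH : 2 ^ h ≤ Hn) (hN : VL f N Hn Λ) :
    (D : ℝ) * ∑ i ∈ Ico a k, ((k : ℝ) - i) * ∑ p ∈ PB i (i + 1), (hpf f N Hn a p : ℝ) ≤
      (192 / 1001 * (Hn : ℝ) * vp 4 a) * (hpV I h Λ k a : ℕ) := by
  unfold hpV
  rw [sI_eq, Finset.mul_sum, Nat.cast_sum, Finset.mul_sum]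
  apply Finset.sum_le_sum
  intro i hi
  rw [Finset.mem_Ico] at hi
  have h1 := hp_one H (N := N) (i := i) ha hi.1 hI hH hN
  have e : (((k - i : ℕ) : ℝ)) = (k : ℝ) - i := by
    rw [Nat.cast_sub (by omega)]
  rw [Nat.cast_mul, e]
  have hki : (0 : ℝ) ≤ (k : ℝ) - i := by
    have : (i : ℝ) ≤ k := by exact_mod_cast (by omega : i ≤ k)
    linarith
  have h2 := mul_le_mul_of_nonneg_left h1 hki
  calc _ = ((k : ℝ) - i) * ((D : ℝ) * ∑ p ∈ PB i (i + 1), (hpf f N Hn a p : ℝ)) := by ring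
    _ ≤ _ := h2
    _ = _ := by ring

theorem core (H : Hyp) {f : ℕ → ℕ} {N Hn Λ k a h I : ℕ} {ch : List (ℕ × ℕ)} {gs : List (ℕ × ℕ × List (ℕ × ℕ))}
    (ha4 : 4 ≤ a) (ha : a ≤ 8192) (hak : a ≤ k) (hΛ : Λ ≤ 4 * k)
    (hI : (D : ℝ) / vp 4 a ≤ I) (hH : 2 ^ h ≤ Hn) (hN : VL f N Hn Λ)
    (hc : chOK a ch = true) (hg : grOK k a a gs = true)
    (h1 : chR a ch + err I h (8 * (chN a ch * chM a ch)) ≤ D)
    (h2 : grV I h k a a gs + hpV I h Λ k a + 1 ≤
      (4 * k - Λ) * (D - (chR a ch + err I h (8 * (chN a ch * chM a ch))))) :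
    ∃ m ∈ cnt N Hn 1 a, ArithmeticFunction.cardFactors (f m) ≤ 3 := by
  apply mtf wt N Hn k Λ a hN
  obtain ⟨P, R, E, M, hch, hP, hR, hE, hM⟩ := chain_sound H ch a ha hc
  obtain ⟨p0, r0, e0, m0⟩ := Ch_nonneg hch
  have hD := D_pos
  have hv := vp_pos 4 a
  have hHr : (2 : ℝ) ^ h ≤ Hn := by exact_mod_cast hH
  have h2h : (0 : ℝ) < 2 ^ h := by positivity
  have hHn : (0 : ℝ) < (Hn : ℝ) := lt_of_lt_of_le h2h hHr
  set V : ℝ := 192 / 1001 * (Hn : ℝ) * vp 4 a with hV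
  have hV0 : 0 < V := by positivity
  set r : ℕ := chR a ch + err I h (8 * (chN a ch * chM a ch)) with hr
  have hrD : (r : ℝ) ≤ (D : ℝ) := by exact_mod_cast h1
  have hR1 : R ≤ 1 := by
    have a1 : (D : ℝ) * R ≤ (D : ℝ) * 1 := by
      have a2 : (chR a ch : ℝ) ≤ (r : ℝ) := by
        rw [hr]; push_cast
        have : (0 : ℝ) ≤ (err I h (8 * (chN a ch * chM a ch)) : ℝ) := Nat.cast_nonneg _
        linarith
      linarith
    exact le_of_mul_le_mul_left a1 hD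
  have hlow := H.bhLow a P R E M hch hR1 N Hn
  -- lower bound for the count
  have hcnt : V * ((D : ℝ) - r) ≤ (D : ℝ) * ((cnt N Hn 1 a).card : ℝ) := by
    have herr := err_ge (a := a) hI (8 * (chN a ch * chM a ch)) hHr
    have hEM : E * M ≤ ((chN a ch * chM a ch : ℕ) : ℝ) := by
      rw [Nat.cast_mul]
      exact mul_le_mul hE hM (by linarith) (Nat.cast_nonneg _)
    have b1 : (D : ℝ) * (8 * (E * M)) ≤ V * (err I h (8 * (chN a ch * chM a ch)) : ℕ) := by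
      refine le_trans ?_ herr
      apply mul_le_mul_of_nonneg_left _ hD.le
      rw [Nat.cast_mul 8]
      push_cast at hEM ⊢
      linarith
    have b2 := mul_le_mul_of_nonneg_left hlow hD.le
    refine le_trans ?_ b2
    have b3 : (D : ℝ) * R * V ≤ chR a ch * V := mul_le_mul_of_nonneg_right hR hV0.le
    rw [hr, Nat.cast_add]
    have b4 : (D : ℝ) * (192 / 1001 * (Hn : ℝ) * vp 4 a * (1 - R) - 8 * (E * M)) =
        V * D - D * R * V - D * (8 * (E * M)) := by rw [hV]; ring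
    rw [b4]
    linarith
  have hup1 := groups_sound H (N := N) ha hI hH gs a le_rfl hak hg
  have hup2 := hp_sound H (k := k) ha4 hI hH hN
  have hsplit : ∑ i ∈ Ico a k, ((k : ℝ) - i) * ∑ p ∈ PB i (i + 1), (((cnt N Hn p a).card : ℝ) + hpf f N Hn a p) =
      ∑ i ∈ Ico a k, ((k : ℝ) - i) * ∑ p ∈ PB i (i + 1), ((cnt N Hn p a).card : ℝ) +
      ∑ i ∈ Ico a k, ((k : ℝ) - i) * ∑ p ∈ PB i (i + 1), (hpf f N Hn a p : ℝ) := by
    rw [← Finset.sum_add_distrib]
    apply Finset.sum_congr rfl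
    intro i _
    rw [Finset.sum_add_distrib]
    ring
  rw [hsplit]
  have e4 : ((4 * k - Λ : ℕ) : ℝ) = 4 * (k : ℝ) - Λ := by
    rw [Nat.cast_sub hΛ]; push_cast; ring
  have eD : ((D - r : ℕ) : ℝ) = (D : ℝ) - r := by
    rw [Nat.cast_sub h1]
  have h2r : ((grV I h k a a gs : ℕ) : ℝ) + (hpV I h Λ k a : ℕ) + 1 ≤ (4 * (k : ℝ) - Λ) * ((D : ℝ) - r) := by
    rw [← e4, ← eD]
    exact_mod_cast h2
  have h40 : (0 : ℝ) ≤ 4 * (k : ℝ) - Λ := by
    rw [← e4]; exact Nat.cast_nonneg _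
  -- multiply by D
  have hfin : (D : ℝ) * (∑ i ∈ Ico a k, ((k : ℝ) - i) * ∑ p ∈ PB i (i + 1), ((cnt N Hn p a).card : ℝ) +
      ∑ i ∈ Ico a k, ((k : ℝ) - i) * ∑ p ∈ PB i (i + 1), (hpf f N Hn a p : ℝ)) <
      (D : ℝ) * ((4 * (k : ℝ) - Λ) * ((cnt N Hn 1 a).card : ℝ)) := by
    rw [mul_add]
    calc _ ≤ V * ((grV I h k a a gs : ℕ) : ℝ) + V * ((hpV I h Λ k a : ℕ) : ℝ) := add_le_add hup1 hup2
      _ < V * ((4 * (k : ℝ) - Λ) * ((D : ℝ) - r)) := by
          rw [← mul_add]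
          apply mul_lt_mul_of_pos_left _ hV0
          linarith
      _ = (4 * (k : ℝ) - Λ) * (V * ((D : ℝ) - r)) := by ring
      _ ≤ (4 * (k : ℝ) - Λ) * ((D : ℝ) * ((cnt N Hn 1 a).card : ℝ)) := mul_le_mul_of_nonneg_left hcnt h40
      _ = _ := by ring
  exact lt_of_mul_lt_mul_left hfin hD.le

/-- the entry of the column -/
def val (n k T h : ℕ) : ℕ := k + n * (h - T)

/-- the conclusion -/
def Good (n k : ℕ) : Prop :=
  ∃ j : ℕ, 1 ≤ j ∧ j ≤ Nat.totient n ∧ ArithmeticFunction.cardFactors (k + n * j) ≤ 3 ∧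
    ∀ p : ℕ, p.Prime → p ∣ k + n * j → n < p ^ 8

/-- a column -/
structure Col (n k T : ℕ) : Prop where
  hn : 1 < n
  hk : 1 ≤ k
  hkn : k ≤ n
  hT : ∀ j ≤ n, (k + n * j) ∣ (T + j)

theorem Col.mem {n k T h : ℕ} (hc : Col n k T) (hh : h ∈ Ioc T (T + Nat.totient n)) :
    1 ≤ h - T ∧ h - T ≤ Nat.totient n ∧ val n k T h ∣ h ∧ val n k T h ≤ n ^ 2 := by
  rw [Finset.mem_Ioc] at hh
  have h1 : Nat.totient n < n := Nat.totient_lt n hc.hn
  have h2 := hc.hT (h - T) (by omega)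
  have h3 : T + (h - T) = h := by omega
  rw [h3] at h2
  refine ⟨by omega, by omega, h2, ?_⟩
  unfold val
  have h4 : h - T ≤ n - 1 := by omega
  have h5 := hc.hkn
  calc k + n * (h - T) ≤ n + n * (n - 1) := Nat.add_le_add h5 (Nat.mul_le_mul_left n h4)
    _ = n ^ 2 := by
      obtain ⟨m, rfl⟩ : ∃ m, n = m + 1 := ⟨n - 1, by omega⟩
      simp only [Nat.add_sub_cancel]
      ring

theorem Col.vl {n k T Λ : ℕ} (hc : Col n k T) (hs : n ^ 2 < 2 ^ (Λ + 1)) :
    VL (val n k T) T (Nat.totient n) Λ := by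
  intro h hh
  obtain ⟨h1, h2, h3, h4⟩ := hc.mem hh
  have h5 := hc.hk
  exact ⟨by unfold val; omega, h3, by omega⟩

theorem good_of {n k T a : ℕ} (hc : Col n k T) (ha : 4 ≤ a) (hna : n ≤ 2 ^ (8 * a))
    (h : ∃ m ∈ cnt T (Nat.totient n) 1 a, ArithmeticFunction.cardFactors (val n k T m) ≤ 3) :
    Good n k := by
  obtain ⟨m, hm, hm3⟩ := h
  obtain ⟨h1, h2, h3, h4⟩ := hc.mem (Finset.mem_filter.mp hm).1
  refine ⟨m - T, h1, h2, hm3, fun p hp hpm => ?_⟩
  have h1 := cnt_prime ha hm hp (dvd_trans hpm h3)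
  calc n ≤ 2 ^ (8 * a) := hna
    _ = (2 ^ a) ^ 8 := by rw [← pow_mul]; congr 1; ring
    _ < p ^ 8 := Nat.pow_lt_pow_left h1 (by norm_num)

/-- soundness of a certificate -/
theorem cert_sound (H : Hyp) (c : Cert) (hc : check c = true) {n k T : ℕ} (hcol : Col n k T)
    (h0 : 2 ^ c.h0 ≤ Nat.totient n) (h1 : Nat.totient n < 2 ^ (c.h1 + 1)) : Good n k := by
  have hn : 0 < n := by have := hcol.hn; omega
  unfold check mainIneq at hc
  simp only [Bool.and_eq_true] at hc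
  obtain ⟨c1, c2, c3, c4, c5, c6, c7, c8, c8b, c9, c10⟩ := hc
  have g1 := Nat.le_of_ble_eq_true c1
  have g2 := Nat.le_of_ble_eq_true c2
  have g3 := Nat.le_of_ble_eq_true c3
  have g4 := Nat.le_of_ble_eq_true c4
  have g5 := Nat.le_of_ble_eq_true c5
  have g6 := Nat.le_of_ble_eq_true c6
  have g8 := Nat.le_of_ble_eq_true c8b
  have g9 := Nat.le_of_ble_eq_true c9
  have g10 := Nat.le_of_ble_eq_true c10
  have hL := H.totL c.L (2 ^ (c.h1 + 1)) n hn g5 h1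
  have hN : VL (val n k T) T (Nat.totient n) c.Λ := by
    refine hcol.vl (lt_of_lt_of_le ?_ g6)
    have a1 : Nat.totient n ≤ n := Nat.totient_le n
    have a2 : n + 1 ≤ c.L * 2 ^ (c.h1 + 1) := by
      have : c.L * Nat.totient n + c.L ≤ c.L * 2 ^ (c.h1 + 1) := by
        rw [← Nat.mul_succ]
        exact Nat.mul_le_mul_left _ h1
      have hLpos : 0 < c.L := by
        rcases Nat.eq_zero_or_pos c.L with h | h
        · rw [h] at hL; omega
        · exact h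
      omega
    calc n ^ 2 < (n + 1) ^ 2 := by nlinarith
      _ ≤ (c.L * 2 ^ (c.h1 + 1)) ^ 2 := Nat.pow_le_pow_left a2 2
      _ = c.L * c.L * 2 ^ (2 * c.h1 + 2) := by ring
  have hn8 : n ≤ 2 ^ (8 * c.a) := by
    refine le_trans hL (le_trans ?_ g8)
    exact Nat.mul_le_mul_left _ h1.le
  exact good_of hcol g1 hn8 (core H (N := T) (Hn := Nat.totient n) (h := c.h0) (I := IVu 4 c.a) g1 g2 g3 g4
    (IVu_ge H le_rfl g1 g2) h0 hN c7 c8 g9 g10)

theorem cover_sound (H : Hyp) {n k T : ℕ} (hcol : Col n k T) : ∀ (l : List Cert) (s e : ℕ), cover s e l = true →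
    2 ^ s ≤ Nat.totient n → Nat.totient n < 2 ^ e → Good n k
  | [], s, e, hc, h1, h2 => by
    have : s = e := Nat.eq_of_beq_eq_true hc
    subst this
    exact absurd h2 (not_lt.mpr h1)
  | c :: l, s, e, hc, h1, h2 => by
    unfold cover at hc
    simp only [Bool.and_eq_true] at hc
    obtain ⟨g1, g2, g3⟩ := hc
    have hs : c.h0 = s := Nat.eq_of_beq_eq_true g1
    by_cases hlt : Nat.totient n < 2 ^ (c.h1 + 1)
    · exact cert_sound H c g2 hcol (by rw [hs]; exact h1) hlt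
    · exact cover_sound H hcol l (c.h1 + 1) e g3 (not_lt.mp hlt) h2

end cert

section asym

open Pool.Agent.Helper1.SQ.C hiding Good good_of hp_one hp_sound core cert_sound cover_sound
open Pool.Agent.Helper1.SQ.C2 hiding hp2 final2core final2' final2

variable {h : ℕ}

theorem hp2 (H : Hyp) (hL : HrLog) (hh : 4800 ≤ h) {f : ℕ → ℕ} {N Hn A K Λ : ℕ} (hA20 : 20 ≤ A) (hA : A ≤ 34)
    (hK : K ≤ 234) (hAK : A ≤ K) (hH : 2 ^ h ≤ Hn) (hN : VL f N Hn Λ) (hΛ : Λ + 1 ≤ 3 * h) :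
    (D : ℝ) * ∑ i ∈ Ico (pt h A) (pt h K), ((pt h K : ℝ) - i) * ∑ p ∈ PB i (i + 1), (hpf f N Hn (pt h A) p : ℝ) ≤
      (192 / 1001 * (Hn : ℝ) * vp 4 (pt h A)) * ((pt h K : ℝ) * 100000) := by
  have hpA := pt_ge hh A
  have hAK' := pt_mono (h := h) hAK
  have hvl := vp_low H hL hh (by omega : 1 ≤ A) hA
  have hcr := crudeIV H hL (a := pt h A) (by omega)
  obtain ⟨s1, s2, s3⟩ := s_facts hh
  have hkh : pt h K + 3 * (h / 120) ≤ h := by
    have := pt_240 h K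
    have h4 : K * h ≤ 234 * h := Nat.mul_le_mul_right h hK
    omega
  have hpb := pow_big (h / 120) s1
  have hpa := pow_big (pt h A) (by omega)
  set a := pt h A with ha
  set k := pt h K with hk
  set s := h / 120 with hs
  have hv := vp_pos 4 a
  have hHn : (0 : ℝ) < (Hn : ℝ) := by
    have : 0 < 2 ^ h := by positivity
    exact_mod_cast (by omega : 0 < Hn)
  have hHr : (2 : ℝ) ^ h ≤ Hn := by exact_mod_cast hH
  have hk0 : (0 : ℝ) ≤ k := Nat.cast_nonneg _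
  -- pointwise in i
  have hpt : ∀ i ∈ Ico a k, ∑ p ∈ PB i (i + 1), (hpf f N Hn a p : ℝ) ≤
      2 * (Hn : ℝ) * (1 / 2 ^ i) + ((PB i (i + 1)).card : ℝ) * (Λ + 1) := by
    intro i hi
    rw [Finset.mem_Ico] at hi
    have hb := hpbf Pool.Agent.Helper40.SQ.disc N Hn Λ a i (by omega) hi.1 hN
    have hsi : sm i (i + 1) ≤ 1 := by
      have h1 := H.sumS i (i + 1) (by omega) (by omega)
      have e0 : hr i (i + 1) = 1 / i := by simp [hr]
      rw [e0] at h1
      have hir : (13 : ℝ) ≤ i := by exact_mod_cast (by omega : 13 ≤ i)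
      have h2 : (1 : ℝ) / i + 1.55 / i ≤ 1 := by
        rw [← add_div, div_le_one (by linarith)]
        linarith
      linarith
    have hs0 := sm_nonneg i (i + 1)
    have h2i : (0 : ℝ) < 2 ^ i := by positivity
    have h4i : (2 : ℝ) ^ i ≤ 4 ^ i := pow_le_pow_left₀ (by norm_num) (by norm_num) i
    have c0 : (0 : ℝ) ≤ ((PB i (i + 1)).card : ℝ) := Nat.cast_nonneg _
    have h5 : (Hn : ℝ) * sm i (i + 1) / 2 ^ i ≤ Hn * (1 / 2 ^ i) := by
      rw [mul_div_assoc]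
      apply mul_le_mul_of_nonneg_left _ hHn.le
      exact div_le_div_of_nonneg_right hsi h2i.le
    have h6 : (Hn : ℝ) * sm i (i + 1) / 4 ^ i ≤ Hn * (1 / 2 ^ i) := by
      rw [mul_div_assoc]
      apply mul_le_mul_of_nonneg_left _ hHn.le
      exact div_le_div₀ (by norm_num) hsi h2i h4i
    have h7 : ((Λ / i - 2 : ℕ) : ℝ) ≤ (Λ : ℝ) := by
      have : Λ / i - 2 ≤ Λ := (Nat.sub_le _ _).trans (Nat.div_le_self _ _)
      exact_mod_cast this
    have h8 : ((PB i (i + 1)).card : ℝ) * ((Λ / i - 2 : ℕ) : ℝ) ≤ ((PB i (i + 1)).card : ℝ) * Λ :=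
      mul_le_mul_of_nonneg_left h7 c0
    have h9 := min_le_right (192 / 1001 * (Hn : ℝ) * sm i (i + 1) / 2 ^ i + 8 * ((PB i (i + 1)).card : ℝ))
      ((Hn : ℝ) * sm i (i + 1) / 2 ^ i + ((PB i (i + 1)).card : ℝ))
    linarith
  have hsum : ∑ i ∈ Ico a k, ((k : ℝ) - i) * ∑ p ∈ PB i (i + 1), (hpf f N Hn a p : ℝ) ≤
      (k : ℝ) * (4 * Hn / 2 ^ a + (Λ + 1) * 2 ^ k) := by
    calc ∑ i ∈ Ico a k, ((k : ℝ) - i) * ∑ p ∈ PB i (i + 1), (hpf f N Hn a p : ℝ) ≤
          ∑ i ∈ Ico a k, (k : ℝ) * (2 * (Hn : ℝ) * (1 / 2 ^ i) + ((PB i (i + 1)).card : ℝ) * (Λ + 1)) := by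
            apply Finset.sum_le_sum
            intro i hi
            have hi' := hi
            rw [Finset.mem_Ico] at hi'
            have h1 : (i : ℝ) ≤ k := by exact_mod_cast (by omega : i ≤ k)
            have h2 : (0 : ℝ) ≤ i := Nat.cast_nonneg _
            apply mul_le_mul (by linarith) (hpt i hi) _ hk0
            exact Finset.sum_nonneg fun p _ => Nat.cast_nonneg _
      _ = (k : ℝ) * (2 * (Hn : ℝ) * ∑ i ∈ Ico a k, (1 : ℝ) / 2 ^ i + ((PB a k).card : ℝ) * (Λ + 1)) := by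
            rw [← Finset.mul_sum, Finset.sum_add_distrib, ← Finset.mul_sum, ← Finset.sum_mul,
              card_eq_sum hAK', Nat.cast_sum]
      _ ≤ _ := by
            apply mul_le_mul_of_nonneg_left _ hk0
            have g1 := geo_sum a k
            rw [if_pos hAK'] at g1
            have g2 : ∑ i ∈ Ico a k, (1 : ℝ) / 2 ^ i ≤ 2 / 2 ^ a := by
              have : (0 : ℝ) ≤ 2 / 2 ^ k := by positivity
              linarith
            have g3 : 2 * (Hn : ℝ) * ∑ i ∈ Ico a k, (1 : ℝ) / 2 ^ i ≤ 2 * Hn * (2 / 2 ^ a) :=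
              mul_le_mul_of_nonneg_left g2 (by positivity)
            have g4 := card_real hAK'
            have g5 : ((PB a k).card : ℝ) * (Λ + 1) ≤ 2 ^ k * (Λ + 1) := by
              apply mul_le_mul_of_nonneg_right (by linarith) (by positivity)
            have g6 : 2 * (Hn : ℝ) * (2 / 2 ^ a) = 4 * Hn / 2 ^ a := by ring
            linarith
  refine (mul_le_mul_of_nonneg_left hsum D_pos.le).trans ?_
  have hfin : (D : ℝ) * (4 * Hn / 2 ^ a + (Λ + 1) * 2 ^ k) ≤ (192 / 1001 * (Hn : ℝ) * vp 4 a) * 100000 := by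
    rw [D_val]
    have hcr' : 1 ≤ (a : ℝ) ^ 2 * vp 4 a := by
      rw [div_le_iff₀ hv] at hcr; exact hcr
    -- first part
    have p1 : (1000000000 : ℝ) * (4 * Hn / 2 ^ a) ≤ (192 / 1001 * (Hn : ℝ) * vp 4 a) * 50000 := by
      have q1 : (417084 : ℝ) * (a : ℝ) ^ 2 ≤ 2 ^ a := by
        have : 417084 * a ^ 2 ≤ 2 ^ a := by
          refine le_trans ?_ hpa
          nlinarith
        exact_mod_cast this
      have q2 : (417084 : ℝ) ≤ 2 ^ a * vp 4 a := by
        calc (417084 : ℝ) ≤ 417084 * ((a : ℝ) ^ 2 * vp 4 a) := by linarith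
          _ = (417084 * (a : ℝ) ^ 2) * vp 4 a := by ring
          _ ≤ 2 ^ a * vp 4 a := mul_le_mul_of_nonneg_right q1 hv.le
      have h2a : (0 : ℝ) < 2 ^ a := by positivity
      rw [← mul_div_assoc, div_le_iff₀ h2a]
      have q3 : (Hn : ℝ) * 417084 ≤ Hn * (2 ^ a * vp 4 a) := mul_le_mul_of_nonneg_left q2 hHn.le
      nlinarith
    -- second part
    have p2 : (1000000000 : ℝ) * ((Λ + 1) * 2 ^ k) ≤ (192 / 1001 * (Hn : ℝ) * vp 4 a) * 50000 := by
      have q1 : 7 * a ≤ h := by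
        have := pt_240 h A
        rw [← ha] at this
        have h4 : A * h ≤ 34 * h := Nat.mul_le_mul_right h hA
        omega
      -- 104271 (Λ+1) a^2 ≤ 2^(3s)
      have q2 : 104300 * ((Λ + 1) * a ^ 2) ≤ 2 ^ (3 * s) := by
        have r1 : Λ + 1 ≤ 360 * (s + 1) := by omega
        have r2 : a ≤ 18 * (s + 1) := by omega
        have r3 : (Λ + 1) * a ^ 2 ≤ (360 * (s + 1)) * (18 * (s + 1)) ^ 2 :=
          Nat.mul_le_mul r1 (Nat.pow_le_pow_left r2 2)
        have r4 : 2 ^ (3 * s) = 2 ^ s * (2 ^ s * 2 ^ s) := by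
          rw [← pow_add, ← pow_add]; congr 1; ring
        have r5 : 1 ≤ 2 ^ s := Nat.one_le_two_pow
        have r6 : (122600000 * (s + 1) ^ 2) * (122600000 * (s + 1) ^ 2 * 1) ≤ 2 ^ s * (2 ^ s * 2 ^ s) :=
          Nat.mul_le_mul hpb (Nat.mul_le_mul hpb r5)
        rw [r4]
        refine le_trans ?_ r6
        have r7 : 104300 * ((Λ + 1) * a ^ 2) ≤ 104300 * ((360 * (s + 1)) * (18 * (s + 1)) ^ 2) :=
          Nat.mul_le_mul_left _ r3
        refine r7.trans ?_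
        have r8 : (s + 1) ^ 3 ≤ (s + 1) ^ 4 := Nat.pow_le_pow_right (by omega) (by norm_num)
        calc 104300 * ((360 * (s + 1)) * (18 * (s + 1)) ^ 2) = 12165552000 * (s + 1) ^ 3 := by ring
          _ ≤ 12165552000 * (s + 1) ^ 4 := Nat.mul_le_mul_left _ r8
          _ ≤ 15030760000000000 * (s + 1) ^ 4 := Nat.mul_le_mul_right _ (by norm_num)
          _ = 122600000 * (s + 1) ^ 2 * (122600000 * (s + 1) ^ 2 * 1) := by ring
      have q3 : (104300 : ℝ) * (((Λ : ℝ) + 1) * (a : ℝ) ^ 2) ≤ 2 ^ (3 * s) := by exact_mod_cast q2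
      have q4 : (104300 : ℝ) * ((Λ : ℝ) + 1) ≤ 2 ^ (3 * s) * vp 4 a := by
        have t1 : (104300 : ℝ) * ((Λ : ℝ) + 1) ≤ 104300 * ((Λ : ℝ) + 1) * ((a : ℝ) ^ 2 * vp 4 a) :=
          le_mul_of_one_le_right (by positivity) hcr'
        have t2 : (104300 : ℝ) * ((Λ : ℝ) + 1) * ((a : ℝ) ^ 2 * vp 4 a) =
            (104300 * (((Λ : ℝ) + 1) * (a : ℝ) ^ 2)) * vp 4 a := by ring
        rw [t2] at t1
        exact t1.trans (mul_le_mul_of_nonneg_right q3 hv.le)
      have q5 : (2 : ℝ) ^ k * 2 ^ (3 * s) ≤ Hn := by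
        rw [← pow_add]
        exact (pow_le_pow_right₀ (by norm_num) hkh).trans hHr
      have h2k : (0 : ℝ) < 2 ^ k := by positivity
      calc (1000000000 : ℝ) * ((Λ + 1) * 2 ^ k) ≤ (192 / 1001 * 50000) * (2 ^ k * (104300 * ((Λ : ℝ) + 1))) := by
            have : (0 : ℝ) ≤ 2 ^ k * ((Λ : ℝ) + 1) := by positivity
            nlinarith
        _ ≤ (192 / 1001 * 50000) * (2 ^ k * (2 ^ (3 * s) * vp 4 a)) := by
            apply mul_le_mul_of_nonneg_left _ (by norm_num)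
            exact mul_le_mul_of_nonneg_left q4 h2k.le
        _ = (192 / 1001 * 50000) * ((2 ^ k * 2 ^ (3 * s)) * vp 4 a) := by ring
        _ ≤ (192 / 1001 * 50000) * (Hn * vp 4 a) := by
            apply mul_le_mul_of_nonneg_left _ (by norm_num)
            exact mul_le_mul_of_nonneg_right q5 hv.le
        _ = _ := by ring
    rw [mul_add]
    linarith
  calc (D : ℝ) * ((k : ℝ) * (4 * Hn / 2 ^ a + (Λ + 1) * 2 ^ k)) =
        (k : ℝ) * ((D : ℝ) * (4 * Hn / 2 ^ a + (Λ + 1) * 2 ^ k)) := by ring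
    _ ≤ (k : ℝ) * ((192 / 1001 * (Hn : ℝ) * vp 4 a) * 100000) := mul_le_mul_of_nonneg_left hfin hk0
    _ = _ := by ring

theorem final2core (H : Hyp) (hL : HrLog) {K A lam r G : ℕ} {c0 : List (ℕ × ℕ)}
    {gs : List (ℕ × ℕ × List (ℕ × ℕ))} (hA31 : 31 ≤ A) (hA : A ≤ 34) (hAK : A ≤ K) (hK : K ≤ 234)
    (hlamr : (D : ℝ) * 9627 ≤ lam * (20 * (K : ℝ) - 1)) (hlam4r : (lam : ℝ) ≤ 4 * D)
    (c7 : chOK2 A c0 = true) (hlev : lev2 A c0 + 2 * A + 5 ≤ 480) (c9 : grOK2 K A A gs = true)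
    (hr : (r : ℝ) = chR2 A c0 + 100000) (hG : (G : ℝ) = grV2 K A A gs + 100000 + 1) (hrDr : (r : ℝ) ≤ D)
    (hiq : (G : ℝ) * D ≤ (4 * (D : ℝ) - lam) * ((D : ℝ) - r))
    {n k₀ T : ℕ} (hcol : Col n k₀ T) (h : ℕ) (h4800 : 4800 ≤ h)
    (hH : 2 ^ h ≤ Nat.totient n) (hH2 : Nat.totient n < 2 ^ (h + 1)) : Good n k₀ := by
  have hn : 0 < n := by have := hcol.hn; omega
  set φ := Nat.totient n with hφd
  have hTL := H.totL h (2 ^ (h + 1)) n hn (two_pow_le_factorial h (by omega)) hH2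
  rw [← hφd] at hTL
  set Λ := 2 * h + 3 + 2 * Nat.log 2 h with hΛ
  have hN : VL (val n k₀ T) T φ Λ := by
    refine hcol.vl ?_
    have a1 : φ ≤ n := Nat.totient_le n
    have a2 : n + 1 ≤ h * 2 ^ (h + 1) := by
      have : h * φ + h ≤ h * 2 ^ (h + 1) := by
        rw [← Nat.mul_succ]
        exact Nat.mul_le_mul_left _ hH2
      omega
    have a3 : h < 2 ^ (Nat.log 2 h + 1) := Nat.lt_pow_succ_log_self (by norm_num) h
    calc n ^ 2 < (n + 1) ^ 2 := by nlinarith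
      _ ≤ (h * 2 ^ (h + 1)) ^ 2 := Nat.pow_le_pow_left a2 2
      _ ≤ (2 ^ (Nat.log 2 h + 1) * 2 ^ (h + 1)) ^ 2 := by
          apply Nat.pow_le_pow_left
          exact Nat.mul_le_mul_right _ a3.le
      _ = 2 ^ (Λ + 1) := by
          rw [← pow_add, ← pow_mul, hΛ]; congr 1; ring
  have hlog := log_small h4800
  have hA20 : 20 ≤ A := by omega
  have hΛ1 : 200 * Λ ≤ 401 * h + 600 := by rw [hΛ]; omega
  have hΛ3 : Λ + 1 ≤ 3 * h := by omega
  set a := pt h A with ha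
  set k := pt h K with hk
  have hak : a ≤ k := pt_mono hAK
  have hpA := pt_ge h4800 A
  have hv := vp_pos 4 a
  have hHr : (2 : ℝ) ^ h ≤ φ := by exact_mod_cast hH
  have h2h : (0 : ℝ) < 2 ^ h := by positivity
  have hφr : (0 : ℝ) < (φ : ℝ) := lt_of_lt_of_le h2h hHr
  set V : ℝ := 192 / 1001 * (φ : ℝ) * vp 4 a with hV
  have hV0 : 0 < V := by positivity
  have hD := D_pos
  -- lambda
  have hk1 : (K : ℝ) * ((h : ℝ) / 240) - 1 < k := pt_gt h K
  have hK20 : (20 : ℝ) ≤ K := by exact_mod_cast (by omega : 20 ≤ K)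
  have hΛk : (D : ℝ) * Λ ≤ lam * k := by
    have b1 : (Λ : ℝ) ≤ 2.005 * h + 3 := by
      have : (200 : ℝ) * Λ ≤ 401 * h + 600 := by exact_mod_cast hΛ1
      linarith
    have hlam0 : (0 : ℝ) ≤ lam := Nat.cast_nonneg _
    set t : ℝ := (h : ℝ) / 240 with ht
    have ht20 : (20 : ℝ) ≤ t := by
      have : (4800 : ℝ) ≤ h := by exact_mod_cast h4800
      rw [ht]; linarith
    have b2 : (h : ℝ) = 240 * t := by rw [ht]; ring
    have b3 : (D : ℝ) * Λ ≤ D * (481.2 * t + 3) := by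
      apply mul_le_mul_of_nonneg_left _ hD.le
      rw [b2] at b1; linarith
    -- slope
    have b4 : (D : ℝ) * 481.2 ≤ lam * K := by
      have : (lam : ℝ) * (20 * (K : ℝ) - 1) ≤ 20 * (lam * K) := by nlinarith
      rw [D_val] at hlamr ⊢
      linarith
    have b5 : (D : ℝ) * (481.2 * t + 3) ≤ lam * (K * t - 1) := by
      have c1 : (D : ℝ) * 481.2 * (t - 20) ≤ lam * K * (t - 20) :=
        mul_le_mul_of_nonneg_right b4 (by linarith)
      nlinarith
    have b6 : (lam : ℝ) * (K * t - 1) ≤ lam * k := mul_le_mul_of_nonneg_left hk1.le hlam0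
    linarith
  have hk0 : (0 : ℝ) < k := by
    have : 0 < k := by omega
    exact_mod_cast this
  have h4k : (0 : ℝ) ≤ 4 * (k : ℝ) - Λ := by
    have : (D : ℝ) * Λ ≤ D * (4 * k) := by
      calc (D : ℝ) * Λ ≤ lam * k := hΛk
        _ ≤ 4 * D * k := mul_le_mul_of_nonneg_right hlam4r hk0.le
        _ = D * (4 * k) := by ring
    have := le_of_mul_le_mul_left this hD
    linarith
  -- the lower bound
  obtain ⟨P, R, E, M, hch, hP, hR, hE, hM⟩ := chain2_sound H hL h4800 c0 A (by omega) (by omega) c7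
  obtain ⟨p0, r0, e0, m0⟩ := Ch_nonneg hch
  rw [← ha] at hch hM
  have hR1 : R ≤ 1 := by
    have a1 : (D : ℝ) * R ≤ (D : ℝ) * 1 := by
      linarith
    exact le_of_mul_le_mul_left a1 hD
  have hlow := H.bhLow a P R E M hch hR1 T φ
  have hEM : E * M * 2 ^ (h / 120) ≤ 2 ^ h := by
    apply pow480 (by positivity)
    calc (E * M * 2 ^ (h / 120)) ^ 480 = E ^ 480 * M ^ 480 * 2 ^ (h / 120 * 480) := by
          rw [mul_pow, mul_pow, ← pow_mul]
      _ ≤ 2 ^ (lev2 A c0 * h) * (2 ^ (a + 1)) ^ 480 * 2 ^ (h / 120 * 480) := by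
          apply mul_le_mul_of_nonneg_right _ (by positivity)
          apply mul_le_mul hE _ (by positivity) (by positivity)
          exact pow_le_pow_left₀ (by linarith) hM _
      _ = 2 ^ (lev2 A c0 * h + (a + 1) * 480 + h / 120 * 480) := by
          rw [← pow_mul, ← pow_add, ← pow_add]
      _ ≤ 2 ^ (480 * h) := by
          apply pow_le_pow_right₀ (by norm_num)
          have h6 := pt_240 h A
          rw [← ha] at h6
          have h7 := s480 h
          have h8 : (lev2 A c0 + 2 * A + 5) * h ≤ 480 * h := Nat.mul_le_mul_right h hlev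
          nlinarith
  have herr := errE H hL h4800 (A := A) (by omega) hA hH (X := 8 * (E * M)) (by linarith)
  rw [← ha, ← hV] at herr
  have hcnt : V * ((D : ℝ) - r) ≤ (D : ℝ) * ((cnt T φ 1 a).card : ℝ) := by
    have b2 := mul_le_mul_of_nonneg_left hlow hD.le
    refine le_trans ?_ b2
    have b3 : (D : ℝ) * R * V ≤ chR2 A c0 * V := mul_le_mul_of_nonneg_right hR hV0.le
    rw [hr]
    have b4 : (D : ℝ) * (192 / 1001 * (φ : ℝ) * vp 4 a * (1 - R) - 8 * (E * M)) =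
        V * D - D * R * V - D * (8 * (E * M)) := by rw [hV]; ring
    rw [b4]
    linarith
  have hup1 := groups2 H hL h4800 (N := T) (K := K) hA hH gs A le_rfl hAK c9
  have hup2 := hp2 H hL h4800 (N := T) (K := K) hA20 hA hK hAK hH hN hΛ3
  rw [← ha, ← hk, ← hV] at hup1 hup2
  have hsplit : ∑ i ∈ Ico a k, ((k : ℝ) - i) *
      ∑ p ∈ PB i (i + 1), (((cnt T φ p a).card : ℝ) + hpf (val n k₀ T) T φ a p) =
      ∑ i ∈ Ico a k, ((k : ℝ) - i) * ∑ p ∈ PB i (i + 1), ((cnt T φ p a).card : ℝ) +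
      ∑ i ∈ Ico a k, ((k : ℝ) - i) * ∑ p ∈ PB i (i + 1), (hpf (val n k₀ T) T φ a p : ℝ) := by
    rw [← Finset.sum_add_distrib]
    apply Finset.sum_congr rfl
    intro i _
    rw [Finset.sum_add_distrib]
    ring
  rw [hG] at hiq
  have hg0 : (0 : ℝ) ≤ ((grV2 K A A gs : ℕ) : ℝ) := Nat.cast_nonneg _
  have hfin : (D : ℝ) * (D * (∑ i ∈ Ico a k, ((k : ℝ) - i) * ∑ p ∈ PB i (i + 1), ((cnt T φ p a).card : ℝ) +
      ∑ i ∈ Ico a k, ((k : ℝ) - i) * ∑ p ∈ PB i (i + 1), (hpf (val n k₀ T) T φ a p : ℝ))) <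
      (D : ℝ) * (D * ((4 * (k : ℝ) - Λ) * ((cnt T φ 1 a).card : ℝ))) := by
    calc _ ≤ (D : ℝ) * (V * ((k : ℝ) * ((grV2 K A A gs : ℕ) : ℝ)) + V * ((k : ℝ) * 100000)) := by
          apply mul_le_mul_of_nonneg_left _ hD.le
          rw [mul_add]
          exact add_le_add hup1 hup2
      _ = V * k * (((grV2 K A A gs : ℕ) : ℝ) * D + 100000 * D) := by ring
      _ < V * k * ((4 * (D : ℝ) - lam) * ((D : ℝ) - r)) := by
          apply mul_lt_mul_of_pos_left _ (by positivity)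
          linarith
      _ = (4 * (D : ℝ) * k - lam * k) * (V * ((D : ℝ) - r)) := by ring
      _ ≤ (4 * (D : ℝ) * k - D * Λ) * (V * ((D : ℝ) - r)) := by
          apply mul_le_mul_of_nonneg_right (by linarith)
          exact mul_nonneg hV0.le (by linarith)
      _ = D * ((4 * (k : ℝ) - Λ) * (V * ((D : ℝ) - r))) := by ring
      _ ≤ D * ((4 * (k : ℝ) - Λ) * (D * ((cnt T φ 1 a).card : ℝ))) := by
          apply mul_le_mul_of_nonneg_left _ hD.le
          exact mul_le_mul_of_nonneg_left hcnt h4k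
      _ = _ := by ring
  have hlt := lt_of_mul_lt_mul_left (lt_of_mul_lt_mul_left hfin hD.le) hD.le
  rw [← hsplit] at hlt
  have hn8 : n ≤ 2 ^ (8 * a) := by
    have a3 : h < 2 ^ (Nat.log 2 h + 1) := Nat.lt_pow_succ_log_self (by norm_num) h
    have e1 : Nat.log 2 h + 1 + (h + 1) ≤ 8 * a := by
      have e2 : 31 * h < 240 * (a + 1) := by
        have e3 : 31 * h ≤ A * h := Nat.mul_le_mul_right h hA31
        have e4 : A * h < 240 * (A * h / 240) + 240 := by omega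
        have e5 : a = A * h / 240 := rfl
        omega
      omega
    calc n ≤ h * φ := hTL
      _ ≤ 2 ^ (Nat.log 2 h + 1) * 2 ^ (h + 1) := Nat.mul_le_mul a3.le hH2.le
      _ = 2 ^ (Nat.log 2 h + 1 + (h + 1)) := (pow_add _ _ _).symm
      _ ≤ 2 ^ (8 * a) := Nat.pow_le_pow_right (by norm_num) e1
  exact good_of hcol (by omega) hn8 (mtf wt T φ k Λ a hN hlt)

theorem final2' (H : Hyp) (hL : HrLog) {K A lam : ℕ} {c0 : List (ℕ × ℕ)} {gs : List (ℕ × ℕ × List (ℕ × ℕ))}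
    (hchk : chk2 K A lam c0 gs = true) {n k₀ T : ℕ} (hcol : Col n k₀ T) (h : ℕ) (h4800 : 4800 ≤ h)
    (hH : 2 ^ h ≤ Nat.totient n) (hH2 : Nat.totient n < 2 ^ (h + 1)) : Good n k₀ := by
  unfold chk2 at hchk
  simp only [Bool.and_eq_true] at hchk
  obtain ⟨c1, c2, c3, c4, c5, c6, c7, c8, c9, c10, c11⟩ := hchk
  have hA31 := Nat.le_of_ble_eq_true c1
  have hA := Nat.le_of_ble_eq_true c2
  have hAK := Nat.le_of_ble_eq_true c3
  have hK := Nat.le_of_ble_eq_true c4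
  have hlev := Nat.le_of_ble_eq_true c8
  have e20 : ((20 * K - 1 : ℕ) : ℝ) = 20 * (K : ℝ) - 1 := by
    rw [Nat.cast_sub (by omega)]; push_cast; ring
  have hlam := Nat.le_of_ble_eq_true c5
  have hlam4 := Nat.le_of_ble_eq_true c6
  have hrD := Nat.le_of_ble_eq_true c10
  have hineq := Nat.le_of_ble_eq_true c11
  have hlamr : (D : ℝ) * 9627 ≤ lam * (20 * (K : ℝ) - 1) := by
    rw [← e20]
    exact_mod_cast hlam
  have hlam4r : (lam : ℝ) ≤ 4 * D := by exact_mod_cast hlam4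
  have hrDr : ((chR2 A c0 + 100000 : ℕ) : ℝ) ≤ D := by exact_mod_cast hrD
  have eD : ((D - (chR2 A c0 + 100000) : ℕ) : ℝ) = (D : ℝ) - ((chR2 A c0 + 100000 : ℕ) : ℝ) :=
    Nat.cast_sub hrD
  have eL : ((4 * D - lam : ℕ) : ℝ) = 4 * (D : ℝ) - lam := by rw [Nat.cast_sub hlam4, Nat.cast_mul]; norm_num
  have hiq : ((grV2 K A A gs + 100000 + 1 : ℕ) : ℝ) * D ≤
      (4 * (D : ℝ) - lam) * ((D : ℝ) - ((chR2 A c0 + 100000 : ℕ) : ℝ)) := by
    rw [← eD, ← eL, ← Nat.cast_mul, ← Nat.cast_mul]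
    exact Nat.cast_le.mpr hineq
  exact final2core H hL hA31 hA hAK hK hlamr hlam4r c7 hlev c9 (r := chR2 A c0 + 100000)
    (G := grV2 K A A gs + 100000 + 1) (by push_cast; ring) (by push_cast; ring) hrDr hiq hcol h h4800 hH hH2

theorem final2 (H : Hyp) (hL : HrLog) {K A lam : ℕ} {c0 : List (ℕ × ℕ)} {gs : List (ℕ × ℕ × List (ℕ × ℕ))}
    (hchk : chk2 K A lam c0 gs = true) {n k₀ T : ℕ} (hcol : Col n k₀ T) (h0 : ℕ) (h4800 : 4800 ≤ h0)
    (hφ : 2 ^ h0 ≤ Nat.totient n) : Good n k₀ := by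
  have hn : 0 < n := by have := hcol.hn; omega
  have hφ0 : Nat.totient n ≠ 0 := (Nat.totient_pos.mpr hn).ne'
  exact final2' H hL hchk hcol (Nat.log 2 (Nat.totient n))
    (h4800.trans (Nat.le_log_of_pow_le (by norm_num) hφ)) (Nat.pow_log_le_self 2 hφ0)
    (Nat.lt_pow_succ_log_self (by norm_num) _)

end asym

end Pool.Agent.Helper26.CP
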