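import Pool.Agent.Helper26.CP.Fin
import Pool.Agent.Helper1.SQ.Final

/-!
# MP_418075_nt: almost primes in the columns (helper26), assembly
-/

set_option autoImplicit false
open Finset

namespace Pool.Agent.Helper26.CP

open Pool.Agent.Helper1.SQ

theorem exists_T {n k : ℕ} (hn : 1 < n) (hk : 1 ≤ k) (hkn : k ≤ n) (hg : Nat.Coprime k n) :
    ∃ T, Col n k T := by
  set Q : ℕ := ∏ j ∈ range (n + 1), (k + n * j) with hQ
  have hcop : ∀ j, Nat.Coprime (k + n * j) n := by
    intro j
    rw [Nat.coprime_add_mul_left_left]
    exact hg
  have hQn : Nat.Coprime Q n := Nat.Coprime.prod_left fun j _ => hcop j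
  have hQ1 : 1 < Q := by
    have h1 : k + n * 1 ∣ Q := Finset.dvd_prod_of_mem _ (Finset.mem_range.2 (by omega))
    have h2 : 0 < Q := Finset.prod_pos fun j _ => by omega
    have h3 := Nat.le_of_dvd h2 h1
    omega
  obtain ⟨x, hx⟩ := Nat.exists_mul_mod_eq_one_of_coprime hQn.symm hQ1
  refine ⟨x * k, hn, hk, hkn, fun j hj => ?_⟩
  have h1 : k + n * j ∣ Q := Finset.dvd_prod_of_mem _ (Finset.mem_range.2 (by omega))
  have h2 : n * x ≡ 1 [MOD Q] := by
    unfold Nat.ModEq
    rw [hx.2, Nat.mod_eq_of_lt hQ1]
  have h3 : n * x ≡ 1 [MOD (k + n * j)] := h2.of_dvd h1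
  have h4 : n * (x * k + j) ≡ 0 [MOD (k + n * j)] := by
    have h5 : n * x * k ≡ 1 * k [MOD (k + n * j)] := h3.mul_right k
    have h6 : n * x * k + n * j ≡ 1 * k + n * j [MOD (k + n * j)] := h5.add_right _
    rw [one_mul] at h6
    have h7 : n * (x * k + j) = n * x * k + n * j := by ring
    rw [h7]
    exact h6.trans ((Nat.modEq_zero_iff_dvd).2 dvd_rfl)
  exact (hcop j).dvd_of_dvd_mul_left ((Nat.modEq_zero_iff_dvd).1 h4)

/-- For every `n > 1` and `k ≤ n` coprime to `n` one of `k + n, …, k + φ(n) n` has at most three prime
factors, all of them larger than `n^(1/8)`. -/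
theorem main {n k : ℕ} (hn : 1 < n) (hk : 1 ≤ k) (hkn : k ≤ n) (hg : Nat.Coprime k n) :
    Good n k := by
  obtain ⟨T, hc⟩ := exists_T hn hk hkn hg
  by_cases h12 : Nat.totient n < 2 ^ 12
  · have h1 := totL 7 (2 ^ 12) n (by omega) (by decide) h12
    exact good_28672 hc hg (by omega)
  · rw [not_lt] at h12
    by_cases h0 : Nat.totient n < 2 ^ 707
    · exact cover_sound hyp hc _ 12 707 C.cover0 h12 h0
    · rw [not_lt] at h0
      clear h12
      by_cases h1 : Nat.totient n < 2 ^ 1304
      · exact cover_sound hyp hc _ 707 1304 C.cover1 h0 h1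
      · rw [not_lt] at h1
        clear h0
        by_cases h2 : Nat.totient n < 2 ^ 2001
        · exact cover_sound hyp hc _ 1304 2001 C.cover2 h1 h2
        · rw [not_lt] at h2
          clear h1
          by_cases h3 : Nat.totient n < 2 ^ 2556
          · exact cover_sound hyp hc _ 2001 2556 C.cover3 h2 h3
          · rw [not_lt] at h3
            clear h2
            by_cases h4 : Nat.totient n < 2 ^ 3072
            · exact cover_sound hyp hc _ 2556 3072 C.cover4 h3 h4
            · rw [not_lt] at h4
              clear h3
              by_cases h5 : Nat.totient n < 2 ^ 3691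
              · exact cover_sound hyp hc _ 3072 3691 C.cover5 h4 h5
              · rw [not_lt] at h5
                clear h4
                by_cases h6 : Nat.totient n < 2 ^ 4172
                · exact cover_sound hyp hc _ 3691 4172 C.cover6 h5 h6
                · rw [not_lt] at h6
                  clear h5
                  by_cases h7 : Nat.totient n < 2 ^ 4715
                  · exact cover_sound hyp hc _ 4172 4715 C.cover7 h6 h7
                  · rw [not_lt] at h7
                    clear h6
                    by_cases h8 : Nat.totient n < 2 ^ 5076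
                    · exact cover_sound hyp hc _ 4715 5076 C.cover8 h7 h8
                    · rw [not_lt] at h8
                      clear h7
                      exact final2 hyp Pool.Agent.Helper25.SQ.hrLog C2.cert2 hc 5076
                        (by norm_num) h8

end Pool.Agent.Helper26.CP
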